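import Pool.Agent.K3h46.AS.Stm

/-!
# Brick POI of project AS (MP_bd895b_nt): closed homogeneous polynomial forms
-/

set_option autoImplicit false

namespace Pool.Agent.K3h55.AS

open MvPolynomial

theorem elem (p : ℕ) [Fact p.Prime] (F : Type) [Field F] [CharP F p] [PerfectRing F p]
    (n i j : ℕ) (hij : i + j = n + 1) (α β : F) (hα : i = 0 → α = 0) (hβ : j = 0 → β = 0)
    (hc : α * j = β * i) :
    ∃ c g h : MvPolynomial (Fin 2) F,
      monomial (Finsupp.single 0 (i - 1) + Finsupp.single 1 j) α =
        pderiv 0 c + g ^ p * X 0 ^ (p - 1) ∧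
      monomial (Finsupp.single 0 i + Finsupp.single 1 (j - 1)) β =
        pderiv 1 c + h ^ p * X 1 ^ (p - 1) ∧
      (g = 0 ∨ g.totalDegree < n) ∧ (h = 0 ∨ h.totalDegree < n) := by
  have hp : p.Prime := Fact.out
  have hp0 : p ≠ 0 := hp.ne_zero
  have e0 : (Finsupp.single (0 : Fin 2) i + Finsupp.single 1 j) - Finsupp.single 0 1 =
      Finsupp.single 0 (i - 1) + Finsupp.single 1 j := by
    ext k
    fin_cases k <;> simp
  have e1 : (Finsupp.single (0 : Fin 2) i + Finsupp.single 1 j) - Finsupp.single 1 1 =
      Finsupp.single 0 i + Finsupp.single 1 (j - 1) := by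
    ext k
    fin_cases k <;> simp
  by_cases hi : (i : F) = 0
  · by_cases hj : (j : F) = 0
    · -- both divisible by `p`
      obtain ⟨i', rfl⟩ := (CharP.cast_eq_zero_iff F p i).1 hi
      obtain ⟨j', rfl⟩ := (CharP.cast_eq_zero_iff F p j).1 hj
      have hs : 1 ≤ i' + j' := by
        rcases Nat.eq_zero_or_pos (i' + j') with h0 | h0
        · have : p * i' + p * j' = 0 := by rw [← Nat.mul_add, h0, Nat.mul_zero]
          omega
        · exact h0
      have hs2 : i' + j' < n + 1 := by
        have h2 := hp.two_le
        nlinarith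
      have key : ∀ (a b : ℕ) (γ : F), ∃ g : MvPolynomial (Fin 2) F,
          g ^ p = monomial (Finsupp.single 0 (p * a) + Finsupp.single 1 (p * b)) γ ∧
          g.totalDegree ≤ a + b := by
        intro a b γ
        refine ⟨monomial (Finsupp.single 0 a + Finsupp.single 1 b)
          ((frobeniusEquiv F p).symm γ), ?_, ?_⟩
        · have e : p • (Finsupp.single (0 : Fin 2) a + Finsupp.single 1 b) =
              Finsupp.single 0 (p * a) + Finsupp.single 1 (p * b) := by
            ext k
            fin_cases k <;> simp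
          rw [monomial_pow, frobeniusEquiv_symm_pow_p, e]
        · refine (totalDegree_monomial_le _ _).trans ?_
          rw [Finsupp.sum_add_index' (fun _ => rfl) (fun _ _ _ => rfl)]
          simp
      refine ⟨0, ?_⟩
      have hg : ∃ g : MvPolynomial (Fin 2) F,
          monomial (Finsupp.single 0 (p * i' - 1) + Finsupp.single 1 (p * j')) α =
            g ^ p * X 0 ^ (p - 1) ∧ (g = 0 ∨ g.totalDegree < n) := by
        rcases Nat.eq_zero_or_pos i' with h0 | h0
        · refine ⟨0, ?_, Or.inl rfl⟩
          rw [hα (by rw [h0, Nat.mul_zero]), zero_pow hp0, zero_mul, map_zero]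
        · obtain ⟨g, hg1, hg2⟩ := key (i' - 1) j' α
          refine ⟨g, ?_, Or.inr (by omega)⟩
          have h3 : p * i' - 1 = p * (i' - 1) + (p - 1) := by
            obtain ⟨k, rfl⟩ : ∃ k, i' = k + 1 := ⟨i' - 1, by omega⟩
            have := hp.pos
            rw [Nat.add_sub_cancel, Nat.mul_add, Nat.mul_one]
            omega
          have e : Finsupp.single (0 : Fin 2) (p * i' - 1) + Finsupp.single 1 (p * j') =
              Finsupp.single 0 (p * (i' - 1)) + Finsupp.single 1 (p * j') +
                Finsupp.single 0 (p - 1) := by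
            rw [h3]
            ext k
            fin_cases k
            · simp
            · simp
          rw [hg1, X_pow_eq_monomial, monomial_mul, mul_one, e]
      have hh : ∃ g : MvPolynomial (Fin 2) F,
          monomial (Finsupp.single 0 (p * i') + Finsupp.single 1 (p * j' - 1)) β =
            g ^ p * X 1 ^ (p - 1) ∧ (g = 0 ∨ g.totalDegree < n) := by
        rcases Nat.eq_zero_or_pos j' with h0 | h0
        · refine ⟨0, ?_, Or.inl rfl⟩
          rw [hβ (by rw [h0, Nat.mul_zero]), zero_pow hp0, zero_mul, map_zero]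
        · obtain ⟨g, hg1, hg2⟩ := key i' (j' - 1) β
          refine ⟨g, ?_, Or.inr (by omega)⟩
          have h3 : p * j' - 1 = p * (j' - 1) + (p - 1) := by
            obtain ⟨k, rfl⟩ : ∃ k, j' = k + 1 := ⟨j' - 1, by omega⟩
            have := hp.pos
            rw [Nat.add_sub_cancel, Nat.mul_add, Nat.mul_one]
            omega
          have e : Finsupp.single (0 : Fin 2) (p * i') + Finsupp.single 1 (p * j' - 1) =
              Finsupp.single 0 (p * i') + Finsupp.single 1 (p * (j' - 1)) +
                Finsupp.single 1 (p - 1) := by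
            rw [h3]
            ext k
            fin_cases k
            · simp
            · simp
          rw [hg1, X_pow_eq_monomial, monomial_mul, mul_one, e]
      obtain ⟨g, hg1, hg2⟩ := hg
      obtain ⟨h, hh1, hh2⟩ := hh
      exact ⟨g, h, by rw [map_zero, zero_add]; exact hg1, by rw [map_zero, zero_add]; exact hh1,
        hg2, hh2⟩
    · refine ⟨monomial (Finsupp.single 0 i + Finsupp.single 1 j) (β / j), 0, 0, ?_, ?_,
        Or.inl rfl, Or.inl rfl⟩
      · have hα0 : α = 0 := by
          rw [hi, mul_zero] at hc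
          exact (mul_eq_zero.1 hc).resolve_right hj
        rw [pderiv_monomial, zero_pow hp0, zero_mul, add_zero, hα0]
        simp [hi]
      · rw [pderiv_monomial, zero_pow hp0, zero_mul, add_zero, e1]
        congr 1
        simp [hj]
  · refine ⟨monomial (Finsupp.single 0 i + Finsupp.single 1 j) (α / i), 0, 0, ?_, ?_,
        Or.inl rfl, Or.inl rfl⟩
    · rw [pderiv_monomial, zero_pow hp0, zero_mul, add_zero, e0]
      congr 1
      simp [hi]
    · rw [pderiv_monomial, zero_pow hp0, zero_mul, add_zero, e1]
      congr 1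
      simp only [Finsupp.coe_add, Pi.add_apply, Finsupp.single_eq_same]
      rw [Finsupp.single_eq_of_ne (by decide), zero_add]
      rw [div_mul_eq_mul_div, hc, mul_div_assoc, div_self hi, mul_one]

theorem degP {F : Type} [Field F] {n : ℕ} {ι : Type} (s : Finset ι)
    (g : ι → MvPolynomial (Fin 2) F) (hg : ∀ i ∈ s, g i = 0 ∨ (g i).totalDegree < n) :
    (∑ i ∈ s, g i) = 0 ∨ (∑ i ∈ s, g i).totalDegree < n := by
  refine Finset.sum_induction g (fun g => g = 0 ∨ g.totalDegree < n) ?_ (Or.inl rfl) hg
  rintro a b (ha | ha) (hb | hb)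
  · left; rw [ha, hb, add_zero]
  · right; rw [ha, zero_add]; exact hb
  · right; rw [hb, add_zero]; exact ha
  · right; exact (totalDegree_add a b).trans_lt (max_lt ha hb)

theorem fin2_eq (m : Fin 2 →₀ ℕ) (i j : ℕ) :
    Finsupp.single 0 i + Finsupp.single 1 j = m ↔ m 0 = i ∧ m 1 = j := by
  constructor
  · rintro rfl
    simp
  · rintro ⟨h0, h1⟩
    ext k
    fin_cases k <;> simp [h0, h1]

theorem hom_coeff {F : Type} [Field F] {n : ℕ} {a : MvPolynomial (Fin 2) F}
    (ha : a.IsHomogeneous n) (m : Fin 2 →₀ ℕ) (hm : m 0 + m 1 ≠ n) : coeff m a = 0 := by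
  refine ha.coeff_eq_zero ?_
  rwa [Finsupp.degree_eq_sum, Fin.sum_univ_two]

theorem t_POI : Pool.Agent.K3h46.AS.S_POI := by
  intro p _ F _ _ _ n a b ha hb hcl
  have hp : p.Prime := Fact.out
  -- the coefficients
  let A : ℕ → F := fun i => if i = 0 then 0 else
    coeff (Finsupp.single 0 (i - 1) + Finsupp.single 1 (n + 1 - i)) a
  let B : ℕ → F := fun i => if i = n + 1 then 0 else
    coeff (Finsupp.single 0 i + Finsupp.single 1 (n - i)) b
  have hAB : ∀ i ∈ Finset.range (n + 2), A i * ((n + 1 - i : ℕ) : F) = B i * ((i : ℕ) : F) := by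
    intro i hi
    rw [Finset.mem_range] at hi
    rcases Nat.eq_zero_or_pos i with h0 | h0
    · simp [A, h0]
    · rcases Nat.lt_or_ge n i with h1 | h1
      · have : i = n + 1 := by omega
        simp [B, this]
      · have h2 := congrArg (coeff (Finsupp.single 0 (i - 1) + Finsupp.single 1 (n - i))) hcl
        rw [coeff_pderiv, coeff_pderiv] at h2
        have e0 : Finsupp.single (0 : Fin 2) (i - 1) + Finsupp.single 1 (n - i) +
            Finsupp.single 0 1 = Finsupp.single 0 i + Finsupp.single 1 (n - i) := by
          ext k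
          fin_cases k <;> simp <;> omega
        have e1 : Finsupp.single (0 : Fin 2) (i - 1) + Finsupp.single 1 (n - i) +
            Finsupp.single 1 1 = Finsupp.single 0 (i - 1) + Finsupp.single 1 (n + 1 - i) := by
          ext k
          fin_cases k <;> simp <;> omega
        rw [e0, e1] at h2
        simp only [A, B, if_neg (show ¬ i = 0 by omega), if_neg (show ¬ i = n + 1 by omega)]
        have c0 : (((Finsupp.single (0 : Fin 2) (i - 1) + Finsupp.single 1 (n - i) :
            Fin 2 →₀ ℕ) 0 : ℕ) : F) + 1 = (i : F) := by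
          have : (Finsupp.single (0 : Fin 2) (i - 1) + Finsupp.single 1 (n - i) :
            Fin 2 →₀ ℕ) 0 + 1 = i := by simp; omega
          exact_mod_cast congrArg (Nat.cast : ℕ → F) this
        have c1 : (((Finsupp.single (0 : Fin 2) (i - 1) + Finsupp.single 1 (n - i) :
            Fin 2 →₀ ℕ) 1 : ℕ) : F) + 1 = ((n + 1 - i : ℕ) : F) := by
          have : (Finsupp.single (0 : Fin 2) (i - 1) + Finsupp.single 1 (n - i) :
            Fin 2 →₀ ℕ) 1 + 1 = n + 1 - i := by simp; omega
          exact_mod_cast congrArg (Nat.cast : ℕ → F) this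
        rw [c0, c1] at h2
        exact h2.symm
  have hasum : a = ∑ i ∈ Finset.range (n + 2),
      monomial (Finsupp.single 0 (i - 1) + Finsupp.single 1 (n + 1 - i)) (A i) := by
    ext m
    rw [coeff_sum]
    simp_rw [coeff_monomial, fin2_eq]
    by_cases hm : m 0 + m 1 = n
    · rw [Finset.sum_eq_single (m 0 + 1)]
      · rw [if_pos ⟨by omega, by omega⟩]
        simp only [A, if_neg (Nat.succ_ne_zero _)]
        congr 1
        symm
        rw [fin2_eq]
        omega
      · intro i hi hne
        rw [Finset.mem_range] at hi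
        by_cases h0 : i = 0
        · simp [A, h0]
        · rw [if_neg]
          omega
      · intro h
        exact absurd (Finset.mem_range.2 (by omega)) h
    · rw [hom_coeff ha m hm]
      symm
      refine Finset.sum_eq_zero ?_
      intro i hi
      rw [Finset.mem_range] at hi
      by_cases h0 : i = 0
      · simp [A, h0]
      · rw [if_neg]
        omega
  have hbsum : b = ∑ i ∈ Finset.range (n + 2),
      monomial (Finsupp.single 0 i + Finsupp.single 1 (n + 1 - i - 1)) (B i) := by
    ext m
    rw [coeff_sum]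
    simp_rw [coeff_monomial, fin2_eq]
    by_cases hm : m 0 + m 1 = n
    · rw [Finset.sum_eq_single (m 0)]
      · rw [if_pos ⟨by omega, by omega⟩]
        simp only [B, if_neg (show ¬ m 0 = n + 1 by omega)]
        congr 1
        symm
        rw [fin2_eq]
        omega
      · intro i hi hne
        rw [if_neg]
        omega
      · intro h
        exact absurd (Finset.mem_range.2 (by omega)) h
    · rw [hom_coeff hb m hm]
      symm
      refine Finset.sum_eq_zero ?_
      intro i hi
      rw [Finset.mem_range] at hi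
      by_cases h0 : i = n + 1
      · simp [B, h0]
      · rw [if_neg]
        omega
  have H : ∀ i, ∃ c g h : MvPolynomial (Fin 2) F, i ∈ Finset.range (n + 2) →
      monomial (Finsupp.single 0 (i - 1) + Finsupp.single 1 (n + 1 - i)) (A i) =
        pderiv 0 c + g ^ p * X 0 ^ (p - 1) ∧
      monomial (Finsupp.single 0 i + Finsupp.single 1 (n + 1 - i - 1)) (B i) =
        pderiv 1 c + h ^ p * X 1 ^ (p - 1) ∧
      (g = 0 ∨ g.totalDegree < n) ∧ (h = 0 ∨ h.totalDegree < n) := by
    intro i
    by_cases hi : i ∈ Finset.range (n + 2)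
    · have hi' := Finset.mem_range.1 hi
      obtain ⟨c, g, h, h1⟩ := elem p F n i (n + 1 - i) (by omega) (A i) (B i)
        (fun h => by simp [A, h]) (fun h => by simp only [B]; rw [if_pos (by omega)]) (hAB i hi)
      exact ⟨c, g, h, fun _ => h1⟩
    · exact ⟨0, 0, 0, fun h => absurd h hi⟩
  choose c g h H using H
  refine ⟨∑ i ∈ Finset.range (n + 2), c i, ∑ i ∈ Finset.range (n + 2), g i,
    ∑ i ∈ Finset.range (n + 2), h i, ?_, ?_, ?_, ?_⟩
  · rw [map_sum, sum_pow_char, Finset.sum_mul, ← Finset.sum_add_distrib, hasum]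
    exact Finset.sum_congr rfl fun i hi => (H i hi).1
  · rw [map_sum, sum_pow_char, Finset.sum_mul, ← Finset.sum_add_distrib, hbsum]
    exact Finset.sum_congr rfl fun i hi => (H i hi).2.1
  · exact degP _ _ fun i hi => (H i hi).2.2.1
  · exact degP _ _ fun i hi => (H i hi).2.2.2

end Pool.Agent.K3h55.AS
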